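import Pool.Agent.helper96.S5.Main

namespace Pool.Agent.Results.MP_0b485e_lc.LevelFive

open PF S5

/-- Let `E*` be the lattice of c.e. sets modulo finite sets, in the language `∪, ∩, 0, 1`. Neither its `Σ_5`-theory
(`b = false`) nor its `Π_5`-theory (`b = true`) is decidable: there is no computable predicate `P` which decides the truth in
`E*` of all closed prenex sentences whose quantifiers form exactly 5 nonempty alternating blocks, the first one
existential (universal). The sentence is given to `P` as the list `q` of its quantifiers and its matrix `φ` as a string of
symbols; different matrices have different strings. -/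
theorem result :
    Function.Injective Fm.str ∧
    ∀ b : Bool, ¬ ∃ P : List Bool × List ℕ → Prop, ComputablePred P ∧
      ∀ (q : List Bool) (φ : Fm), Pat 5 b q → clo q.length φ → (P (q, φ.str) ↔ Sat EStar q φ []) :=
  ⟨PF.DST.2.2, level_five⟩

end Pool.Agent.Results.MP_0b485e_lc.LevelFive
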