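import Pool.Agent.helper88.PF.Main

namespace Pool.Agent.Results.MP_0b485e_lc.PositiveFragments

open PF

/-- Let `E*` be the lattice of c.e. sets modulo finite sets, in the language `∪, ∩, 0, 1`.
There is an algorithm which decides the truth in `E*` of all prenex sentences (with any number of
alternations)

  `∃ w_1 ... w_k  ∀ x_1 ... x_m  (any quantifiers)  ∀ z_1 ... z_r  φ`

for which every atom occurring negatively in the matrix `φ` contains only variables of the first
universal block `x_1, ..., x_m` and of the last one `z_1, ..., z_r`. The variable `i` of the matrix is bound by
the quantifier number `i`, counted from the right; the algorithm gets `k`, `m`, the quantifiers in the middle, `r` and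
the matrix as a string of symbols. The numbers `k`, `m`, `r` can be `0`.

Special cases: the positive theory of `E*` (no atom occurs negatively, all quantifier prefixes); the sentences with
a prefix `∀∃∀`, or `∃∀∃∀`, in which the existentially quantified variables occur only in positive atoms. -/
theorem result :
    Function.Injective Fm.str ∧
    ∃ D : ℕ × ℕ × List Bool × ℕ × List ℕ → Prop, ComputablePred D ∧
      ∀ (k m : ℕ) (mid : List Bool) (r : ℕ) (φ : Fm),
        φ.Pol (fun i => i < r ∨ (r + mid.length ≤ i ∧ i < r + mid.length + m)) true →
        (D (k, m, mid, r, φ.str) ↔
          Sat EStar (List.replicate k false ++ List.replicate m true ++ mid ++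
            List.replicate r true) φ []) :=
  all_done

end Pool.Agent.Results.MP_0b485e_lc.PositiveFragments
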